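import Pool.Agent.Q22.LP.Mult
import Pool.Agent.Q22.LE.Cls
import Pool.Agent.Results.MP_59f3ad_nt.AllPrimesUpToABound

set_option autoImplicit false

/-! Many fields in the family `(X - t) G - 1`. -/

namespace Pool.Agent.Q22.LP

open NumberField Module Finset Polynomial
open Pool.Agent.W254.LF (LeopoldtAt)

/-- the factors: `X - i`, `i < a`, and `X² + k + 1`, `k < u` -/
noncomputable def PP (a u : ℕ) : Fin (a + u) → ℤ[X] :=
  Fin.append (fun i : Fin a => X - C ((i : ℕ) : ℤ)) (fun k : Fin u => X ^ 2 + C (((k : ℕ) : ℤ) + 1))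

lemma PP_left (a u : ℕ) (i : Fin a) : PP a u (Fin.castAdd u i) = X - C ((i : ℕ) : ℤ) := by
  unfold PP; rw [Fin.append_left]

lemma PP_right (a u : ℕ) (k : Fin u) : PP a u (Fin.natAdd a k) = X ^ 2 + C (((k : ℕ) : ℤ) + 1) := by
  unfold PP; rw [Fin.append_right]

lemma deg_left (i : ℕ) : (X - C (i : ℤ) : ℤ[X]).natDegree = 1 := natDegree_X_sub_C _

lemma deg_right (k : ℕ) : (X ^ 2 + C ((k : ℤ) + 1) : ℤ[X]).natDegree = 2 := natDegree_X_pow_add_C

lemma fam (a u : ℕ) (h : 0 < a + u) : ∃ G : ℤ[X], G.Monic ∧ G.natDegree = a + 2 * u ∧ ∃ C₀ : ℕ,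
    ∀ A : Finset ℕ, (∀ p ∈ A, p.Prime) → ∃ E : Finset ℤ, E.card ≤ (a + 2 * u) * (∑ p ∈ A, p) + C₀ ∧
      ∀ t ∉ E, Irreducible ((Fp G t).map (Int.castRingHom ℚ)) ∧
        ∀ (K : Type) [Field K] [NumberField K] (θ : K), aeval θ (Fp G t) = 0 →
          IntermediateField.adjoin ℚ {θ} = ⊤ →
          InfinitePlace.nrRealPlaces K = a + 1 ∧ InfinitePlace.nrComplexPlaces K = u ∧
          ∀ (p : ℕ) [Fact p.Prime], p ∈ A → LeopoldtAt K p := by
  classical
  have hmon : ∀ i, (PP a u i).Monic := by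
    intro i
    refine Fin.addCases (fun i => ?_) (fun k => ?_) i
    · rw [PP_left]; exact monic_X_sub_C _
    · rw [PP_right]; exact monic_X_pow_add_C _ (by norm_num)
  have hinj : Function.Injective (PP a u) := by
    intro i j
    refine Fin.addCases (fun i => ?_) (fun i => ?_) i <;> refine Fin.addCases (fun j => ?_) (fun j => ?_) j
    · rw [PP_left, PP_left]
      intro hij
      have h1 := C_injective (sub_right_injective hij)
      have h2 : (i : ℕ) = j := by exact_mod_cast h1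
      rw [Fin.ext h2]
    · rw [PP_left, PP_right]
      intro hij
      have h1 := congrArg natDegree hij
      rw [deg_left, deg_right] at h1
      omega
    · rw [PP_left, PP_right]
      intro hij
      have h1 := congrArg natDegree hij
      rw [deg_left, deg_right] at h1
      omega
    · rw [PP_right, PP_right]
      intro hij
      have h1 := C_injective (add_left_cancel hij)
      have h2 : (i : ℕ) = j := by
        have : (i : ℤ) = j := by linarith
        exact_mod_cast this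
      rw [Fin.ext h2]
  have hdeg : ∀ i, (PP a u i).natDegree = 1 ∨ ((PP a u i).natDegree = 2 ∧
      ∀ x : ℝ, ((PP a u i).map (Int.castRingHom ℝ)).eval x ≠ 0) := by
    intro i
    refine Fin.addCases (fun i => ?_) (fun k => ?_) i
    · left; rw [PP_left]; exact deg_left _
    · right
      rw [PP_right]
      refine ⟨deg_right _, fun x => ?_⟩
      have e : ∀ c : ℤ, ((X ^ 2 + C c : ℤ[X]).map (Int.castRingHom ℝ)).eval x = x ^ 2 + (c : ℝ) := by
        intro c; simp
      rw [e]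
      push_cast
      positivity
  obtain ⟨C₀, hC₀, -⟩ := Pool.Agent.Results.MP_59f3ad_nt.AllPrimesUpToABound.result (a + u) (PP a u) h
    hmon hinj hdeg
  have hsum : ∑ i, (PP a u i).natDegree = a + 2 * u := by
    rw [Fin.sum_univ_add]
    simp only [PP_left, PP_right, deg_left, deg_right, sum_const, card_univ, Fintype.card_fin, smul_eq_mul]
    ring
  have hc1 : (Finset.univ.filter fun i => (PP a u i).natDegree = 1).card = a := by
    rw [Finset.card_filter, Fin.sum_univ_add]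
    simp only [PP_left, PP_right, deg_left, deg_right]
    simp
  have hc2 : (Finset.univ.filter fun i => (PP a u i).natDegree = 2).card = u := by
    rw [Finset.card_filter, Fin.sum_univ_add]
    simp only [PP_left, PP_right, deg_left, deg_right]
    simp
  refine ⟨∏ i, PP a u i, monic_prod_of_monic _ _ fun i _ => hmon i, ?_, C₀, fun A hA => ?_⟩
  · rw [natDegree_prod_of_monic _ _ fun i _ => hmon i, hsum]
  · obtain ⟨E, hE, h1⟩ := hC₀ A hA
    rw [hsum] at hE
    refine ⟨E, hE, fun t ht => ?_⟩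
    obtain ⟨h2, h3⟩ := h1 t ht
    refine ⟨h2, fun K _ _ θ hθ hgen => ?_⟩
    obtain ⟨h4, h5, h6⟩ := h3 K θ hθ hgen
    rw [hc1] at h4
    rw [hc2] at h5
    exact ⟨by omega, h5, h6⟩

lemma aeval_int' {K : Type} [Field K] (θ : K) (F : ℤ[X]) (φ : ℚ →+* K)
    (h : (F.map (Int.castRingHom ℚ)).eval₂ φ θ = 0) : aeval θ F = 0 := by
  rw [aeval_def, show algebraMap ℤ K = φ.comp (Int.castRingHom ℚ) from RingHom.ext_int _ _, ← eval₂_map]
  exact h

/-- counting -/
theorem count (a u : ℕ) (h : 0 < a + u) : ∃ (C₂ C₁ : ℝ) (C₀ : ℕ), 0 < C₂ ∧ 1 ≤ C₁ ∧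
    ∀ A : Finset ℕ, (∀ p ∈ A, p.Prime) → ∀ R : ℕ, 1 ≤ R → ∀ X : ℝ,
      (((a + 2 * u + 1).factorial : ℝ) * (C₁ * R) ^ (a + 2 * u)) ^ 2 ≤ X →
      ∃ (q : ℕ) (K : Fin q → Type) (_ : ∀ i, Field (K i)) (_ : ∀ i, NumberField (K i)),
        (R : ℝ) - ((a + 2 * u : ℕ) * (∑ p ∈ A, (p : ℝ)) + C₀) ≤ q * (C₂ * Real.log (C₁ * R) ^ (a + 2 * u)) ∧
        (∀ i j, i ≠ j → IsEmpty (K i ≃+* K j)) ∧
        ∀ i, InfinitePlace.nrRealPlaces (K i) = a + 1 ∧ InfinitePlace.nrComplexPlaces (K i) = u ∧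
          |(discr (K i) : ℝ)| ≤ X ∧ ∀ (p : ℕ) [Fact p.Prime], p ∈ A → LeopoldtAt (K i) p := by
  classical
  obtain ⟨G, hG, hGd, C₀, hfam⟩ := fam a u h
  have hG1 : 1 ≤ G.natDegree := by omega
  obtain ⟨C₂, C₁, hC₂, hC₁, hmult⟩ := mult G hG hG1
  obtain ⟨C₁', hC₁', hmah⟩ := Fp_mahler G hG hG1
  refine ⟨C₂, max C₁ C₁', C₀, hC₂, hC₁.trans (le_max_left _ _), ?_⟩
  intro A hA R hR X hX
  obtain ⟨E, hE, hfam⟩ := hfam A hA
  have hR1 : (1 : ℝ) ≤ R := by exact_mod_cast hR
  let ι : Type := {t : ℤ // t ∉ E}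
  have hex : ∀ t : ι, ∃ (K : Type) (_ : Field K) (_ : NumberField K) (θ : K), aeval θ (Fp G t.1) = 0 ∧
      IntermediateField.adjoin ℚ {θ} = ⊤ := by
    intro t
    have hirr := (hfam t.1 t.2).1
    have : Fact (Irreducible ((Fp G t.1).map (Int.castRingHom ℚ))) := ⟨hirr⟩
    have : FiniteDimensional ℚ (AdjoinRoot ((Fp G t.1).map (Int.castRingHom ℚ))) :=
      (AdjoinRoot.powerBasis hirr.ne_zero).finite
    have : NumberField (AdjoinRoot ((Fp G t.1).map (Int.castRingHom ℚ))) :=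
      { to_charZero := charZero_of_injective_algebraMap
          (algebraMap ℚ (AdjoinRoot ((Fp G t.1).map (Int.castRingHom ℚ)))).injective
        to_finiteDimensional := inferInstance }
    refine ⟨AdjoinRoot ((Fp G t.1).map (Int.castRingHom ℚ)), inferInstance, inferInstance,
      AdjoinRoot.root _, ?_, ?_⟩
    · exact aeval_int' _ _ (AdjoinRoot.of ((Fp G t.1).map (Int.castRingHom ℚ))) (AdjoinRoot.eval₂_root _)
    · have h1 : Algebra.adjoin ℚ {AdjoinRoot.root ((Fp G t.1).map (Int.castRingHom ℚ))} = ⊤ :=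
        AdjoinRoot.adjoinRoot_eq_top
      rw [eq_top_iff]
      intro x _
      have h2 : x ∈ Algebra.adjoin ℚ {AdjoinRoot.root ((Fp G t.1).map (Int.castRingHom ℚ))} := by
        rw [h1]; trivial
      exact (IntermediateField.algebra_adjoin_le_adjoin ℚ _) h2
  choose K hF hN θ hθ hgen using hex
  set s : Finset ι := (Finset.Icc 1 (R : ℤ) \ E).subtype (fun t => t ∉ E) with hs
  have hsc : (R : ℝ) - ((a + 2 * u : ℕ) * (∑ p ∈ A, (p : ℝ)) + C₀) ≤ s.card := by
    have h1 : s.card = (Finset.Icc 1 (R : ℤ) \ E).card := by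
      rw [hs, Finset.card_subtype, Finset.filter_true_of_mem (fun t ht => (mem_sdiff.1 ht).2)]
    have h2 := Finset.le_card_sdiff E (Finset.Icc 1 (R : ℤ))
    rw [Int.card_Icc] at h2
    have h3 : R - ((a + 2 * u) * (∑ p ∈ A, p) + C₀) ≤ s.card := by omega
    have h4 : R ≤ s.card + ((a + 2 * u) * (∑ p ∈ A, p) + C₀) := by omega
    have h5 : (R : ℝ) ≤ ((s.card + ((a + 2 * u) * (∑ p ∈ A, p) + C₀) : ℕ) : ℝ) := by exact_mod_cast h4
    push_cast at h5 ⊢
    linarith
  have hsR : ∀ t ∈ s, |((t : ℤ) : ℝ)| ≤ R := by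
    intro t ht
    rw [hs, Finset.mem_subtype, mem_sdiff, mem_Icc] at ht
    have h1 : (1 : ℝ) ≤ ((t : ℤ) : ℝ) := by exact_mod_cast ht.1.1
    have h2 : ((t : ℤ) : ℝ) ≤ R := by exact_mod_cast ht.1.2
    rw [abs_of_nonneg (by linarith)]
    exact h2
  have hfin : ∀ t : ι, finrank ℚ (K t) = G.natDegree + 1 := by
    intro t
    have h1 := (mahler_disc (θ t) (Fp G t.1) (Fp_monic hG hG1 t.1).1 (hfam t.1 t.2).1 (hθ t) (hgen t)).1
    rw [h1, (Fp_monic hG hG1 t.1).2]
  obtain ⟨q, f, h1, h2, h3⟩ := Pool.Agent.Q22.LE.classes s K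
    (C₂ * Real.log (max C₁ C₁' * R) ^ (a + 2 * u)) (by
    intro t ht v hv hiso
    rw [← Finset.card_image_of_injective v Subtype.val_injective]
    refine (hmult (K t) (hfin t) R hR1 _ ?_).trans ?_
    · intro x hx
      rw [mem_image] at hx
      obtain ⟨t', ht', rfl⟩ := hx
      refine ⟨hsR t' (hv ht'), (hfam t'.1 t'.2).1, ?_⟩
      obtain ⟨g⟩ := hiso t' ht'
      let g' : K t' ≃ₐ[ℚ] K t := AlgEquiv.ofRingEquiv (f := g) (fun r => map_ratCast g r)
      refine ⟨g' (θ t'), ?_, ?_⟩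
      · have h4 := congrArg g' (hθ t')
        rw [map_zero] at h4
        rw [← h4]
        exact (aeval_algHom_apply ((g' : K t' →ₐ[ℚ] K t).restrictScalars ℤ) (θ t') _)
      · have h5 := congrArg (IntermediateField.map (g' : K t' →ₐ[ℚ] K t)) (hgen t')
        rw [IntermediateField.adjoin_map, Set.image_singleton] at h5
        have h6 : IntermediateField.map (g' : K t' →ₐ[ℚ] K t) ⊤ = ⊤ := by
          rw [eq_top_iff]
          intro x _
          rw [IntermediateField.mem_map]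
          exact ⟨g'.symm x, trivial, g'.apply_symm_apply x⟩
        rw [h6] at h5
        exact h5
    · rw [hGd]
      apply mul_le_mul_of_nonneg_left _ hC₂.le
      apply pow_le_pow_left₀ (Real.log_nonneg (by nlinarith))
      apply Real.log_le_log (by nlinarith)
      exact mul_le_mul_of_nonneg_right (le_max_left _ _) (by linarith))
  refine ⟨q, fun i => K (f i), fun i => hF _, fun i => hN _, hsc.trans h1, h3, fun i => ?_⟩
  obtain ⟨h4, h5, h6⟩ := (hfam (f i).1 (f i).2).2 (K (f i)) (θ (f i)) (hθ (f i)) (hgen (f i))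
  refine ⟨h4, h5, ?_, h6⟩
  have h7 := (mahler_disc (θ (f i)) (Fp G (f i).1) (Fp_monic hG hG1 (f i).1).1 (hfam (f i).1 (f i).2).1
    (hθ (f i)) (hgen (f i))).2
  rw [(Fp_monic hG hG1 (f i).1).2, hGd, Nat.add_sub_cancel] at h7
  refine (h7.trans ?_).trans hX
  have h8 := hmah R hR1 (f i).1 (hsR _ (h2 i))
  have h9 : (0 : ℝ) ≤ ((Fp G (f i).1).map (Int.castRingHom ℂ)).mahlerMeasure := mahlerMeasure_nonneg _
  have h10 : C₁' * (R : ℝ) ≤ max C₁ C₁' * R := mul_le_mul_of_nonneg_right (le_max_right _ _) (by linarith)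
  apply pow_le_pow_left₀ (by positivity)
  apply mul_le_mul_of_nonneg_left _ (Nat.cast_nonneg _)
  exact pow_le_pow_left₀ h9 (h8.trans h10) _

end Pool.Agent.Q22.LP
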