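import Pool.Agent.Q22.LP.Count

set_option autoImplicit false

/-! The final estimate. -/

namespace Pool.Agent.Q22.LP

open NumberField Module Finset Polynomial Filter Topology
open Pool.Agent.W254.LF (LeopoldtAt)

theorem final (a u : ℕ) (h : 0 < a + u) : ∃ c : ℝ, 0 < c ∧ ∃ X₀ : ℝ, ∀ X : ℝ, X₀ ≤ X →
    ∀ A : Finset ℕ, (∀ p ∈ A, p.Prime) →
      ∑ p ∈ A, (p : ℝ) ≤ c * X ^ ((1 : ℝ) / (2 * (a + 2 * u) : ℕ)) →
      ∃ (q : ℕ) (K : Fin q → Type) (_ : ∀ i, Field (K i)) (_ : ∀ i, NumberField (K i)),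
        c * X ^ ((1 : ℝ) / (2 * (a + 2 * u) : ℕ)) / Real.log X ^ (a + 2 * u) ≤ q ∧
        (∀ i j, i ≠ j → IsEmpty (K i ≃+* K j)) ∧
        ∀ i, InfinitePlace.nrRealPlaces (K i) = a + 1 ∧ InfinitePlace.nrComplexPlaces (K i) = u ∧
          |(discr (K i) : ℝ)| ≤ X ∧ ∀ (p : ℕ) [Fact p.Prime], p ∈ A → LeopoldtAt (K i) p := by
  obtain ⟨C₂, C₁, C₀, hC₂, hC₁, hcount⟩ := count a u h
  obtain ⟨m, hm⟩ : ∃ m : ℕ, m = a + 2 * u := ⟨_, rfl⟩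
  rw [← hm] at hcount ⊢
  have hm1 : 1 ≤ m := by omega
  have hm1' : (1 : ℝ) ≤ m := by exact_mod_cast hm1
  obtain ⟨e, he⟩ : ∃ e : ℕ, e = 2 * m := ⟨_, rfl⟩
  have he0 : e ≠ 0 := by omega
  have hC1p : 0 < C₁ := by linarith
  have hfac : (0 : ℝ) < ((m + 1).factorial : ℝ) := by exact_mod_cast Nat.factorial_pos _
  have hfac1 : (1 : ℝ) ≤ ((m + 1).factorial : ℝ) := by exact_mod_cast Nat.factorial_pos _
  obtain ⟨D, hD⟩ : ∃ D : ℝ, D = (((m + 1).factorial : ℝ) * C₁ ^ m) ^ 2 := ⟨_, rfl⟩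
  have hD0 : 0 < D := by rw [hD]; positivity
  obtain ⟨E, hE⟩ : ∃ E : ℝ, E = D ^ ((e : ℝ)⁻¹) := ⟨_, rfl⟩
  have hE0 : 0 < E := by rw [hE]; exact Real.rpow_pos_of_pos hD0 _
  have hEe : E ^ e = D := by rw [hE]; exact Real.rpow_inv_natCast_pow hD0.le he0
  have ev : ∀ᶠ X : ℝ in atTop, 8 * ((C₀ : ℝ) + 1) * E ≤ X ^ ((e : ℝ)⁻¹) :=
    (tendsto_rpow_atTop (by positivity)).eventually_ge_atTop _
  obtain ⟨X₀, hX₀⟩ := eventually_atTop.1 (ev.and (eventually_ge_atTop (2 : ℝ)))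
  obtain ⟨c, hc⟩ : ∃ c : ℝ, c = min (1 / (8 * m * E)) (1 / (4 * C₂ * E)) := ⟨_, rfl⟩
  have hc0 : 0 < c := by rw [hc]; exact lt_min (by positivity) (by positivity)
  refine ⟨c, hc0, X₀, fun X hX A hA hAX => ?_⟩
  obtain ⟨e1, e2⟩ := hX₀ X hX
  have hX0 : 0 < X := by linarith
  obtain ⟨Z, hZ⟩ : ∃ Z : ℝ, Z = X ^ ((e : ℝ)⁻¹) := ⟨_, rfl⟩
  have hZ0 : 0 < Z := by rw [hZ]; exact Real.rpow_pos_of_pos hX0 _
  have hZe : Z ^ e = X := by rw [hZ]; exact Real.rpow_inv_natCast_pow hX0.le he0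
  have h9 : X ^ ((1 : ℝ) / (2 * m : ℕ)) = Z := by
    rw [hZ, he, one_div]
  rw [h9] at hAX ⊢
  rw [← hZ] at e1
  obtain ⟨Y, hY⟩ : ∃ Y : ℝ, Y = Z / E := ⟨_, rfl⟩
  have hY4 : 8 * ((C₀ : ℝ) + 1) ≤ Y := by
    rw [hY, le_div_iff₀ hE0]; exact e1
  have ht0 : (0 : ℝ) ≤ C₀ := Nat.cast_nonneg _
  have hY0 : 0 ≤ Y := by linarith
  obtain ⟨R, hR⟩ : ∃ R : ℕ, R = ⌊Y⌋₊ := ⟨_, rfl⟩
  have hR1 : 1 ≤ R := by
    rw [hR]; exact Nat.le_floor (by push_cast; linarith)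
  have hR1' : (1 : ℝ) ≤ R := by exact_mod_cast hR1
  have hR2 : (R : ℝ) ≤ Y := by rw [hR]; exact Nat.floor_le hY0
  have hR3 : Y < R + 1 := by rw [hR]; exact Nat.lt_floor_add_one _
  have hbound : (((m + 1).factorial : ℝ) * (C₁ * R) ^ m) ^ 2 ≤ X := by
    have h1 : (C₁ * (R : ℝ)) ^ m ≤ (C₁ * Y) ^ m := by
      apply pow_le_pow_left₀ (by positivity)
      exact mul_le_mul_of_nonneg_left hR2 hC1p.le
    calc (((m + 1).factorial : ℝ) * (C₁ * R) ^ m) ^ 2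
        ≤ (((m + 1).factorial : ℝ) * (C₁ * Y) ^ m) ^ 2 :=
          pow_le_pow_left₀ (by positivity) (mul_le_mul_of_nonneg_left h1 hfac.le) 2
      _ = D * Y ^ e := by
          rw [hD, he, mul_pow C₁]
          ring
      _ = X := by
          rw [hY, div_pow, hEe, hZe]
          field_simp
  obtain ⟨q, K, hF, hN, h1, h2, h3⟩ := hcount A hA R hR1 X hbound
  refine ⟨q, K, hF, hN, ?_, h2, h3⟩
  have hlogX : 0 < Real.log X := Real.log_pos (by linarith)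
  have hCR : 1 ≤ C₁ * R := by nlinarith
  have h4 : Real.log (C₁ * R) ≤ Real.log X := by
    apply Real.log_le_log (by positivity)
    refine le_trans ?_ hbound
    have h5 : C₁ * (R : ℝ) ≤ (C₁ * R) ^ m := le_self_pow₀ hCR (by omega)
    have h6 : 1 ≤ (C₁ * (R : ℝ)) ^ m := one_le_pow₀ hCR
    have h7 : (C₁ * (R : ℝ)) ^ m ≤ ((m + 1).factorial : ℝ) * (C₁ * R) ^ m :=
      le_mul_of_one_le_left (by positivity) hfac1
    have h8 : ((m + 1).factorial : ℝ) * (C₁ * R) ^ m ≤ (((m + 1).factorial : ℝ) * (C₁ * R) ^ m) ^ 2 :=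
      le_self_pow₀ (h6.trans h7) (by norm_num)
    linarith
  have h5 : 0 ≤ Real.log (C₁ * R) := Real.log_nonneg hCR
  have h6 : (R : ℝ) - ((m : ℕ) * (∑ p ∈ A, (p : ℝ)) + C₀) ≤ q * (C₂ * Real.log X ^ m) := by
    refine h1.trans ?_
    apply mul_le_mul_of_nonneg_left _ (Nat.cast_nonneg _)
    apply mul_le_mul_of_nonneg_left _ hC₂.le
    exact pow_le_pow_left₀ h5 h4 _
  have h7 : (m : ℝ) * (∑ p ∈ A, (p : ℝ)) ≤ Y / 8 := by
    have h8 : c ≤ 1 / (8 * m * E) := by rw [hc]; exact min_le_left _ _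
    calc (m : ℝ) * (∑ p ∈ A, (p : ℝ)) ≤ m * (c * Z) := mul_le_mul_of_nonneg_left hAX (by linarith)
      _ ≤ m * (1 / (8 * m * E) * Z) := by
          apply mul_le_mul_of_nonneg_left _ (by linarith)
          exact mul_le_mul_of_nonneg_right h8 hZ0.le
      _ = Y / 8 := by
          rw [hY]
          field_simp
  have h8 : Y / 4 ≤ q * (C₂ * Real.log X ^ m) := by
    refine le_trans ?_ h6
    linarith
  have h10 : c ≤ 1 / (4 * C₂ * E) := by rw [hc]; exact min_le_right _ _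
  rw [div_le_iff₀ (by positivity)]
  calc c * Z ≤ 1 / (4 * C₂ * E) * Z := mul_le_mul_of_nonneg_right h10 hZ0.le
    _ = (Y / 4) / C₂ := by rw [hY]; field_simp
    _ ≤ q * Real.log X ^ m := by
        rw [div_le_iff₀ hC₂]
        calc Y / 4 ≤ q * (C₂ * Real.log X ^ m) := h8
          _ = _ := by ring

end Pool.Agent.Q22.LP
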