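import Mathlib
import Pool.Agent.W231.R.Disc

set_option autoImplicit false

/-! Mahler's inequality between the discriminant and the Mahler measure. -/

namespace Pool.Agent.Q22.LP

open NumberField Module Finset Polynomial
open scoped Matrix

theorem abs_discr_le_row {L : Type*} [Field L] [NumberField L] {ι : Type*} [Fintype ι] [DecidableEq ι]
    (b : Basis ι ℚ L) (hb : ∀ i, IsIntegral ℤ (b i)) (N : (L →ₐ[ℚ] ℂ) → ℝ)
    (hN : ∀ i (σ : L →ₐ[ℚ] ℂ), ‖σ (b i)‖ ≤ N σ) :
    |(discr L : ℝ)| ≤ ((Fintype.card ι).factorial * ∏ σ, N σ) ^ 2 := by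
  classical
  -- the integral basis
  set c : Basis ι ℤ (𝓞 L) := (RingOfIntegers.basis L).reindex
    ((integralBasis L).indexEquiv b) with hc
  -- the coordinates
  set P : Matrix ι ι ℤ := fun i j => c.repr ⟨b j, hb j⟩ i with hP
  have hcoord : ∀ j, b j = ∑ i, (c i : L) * ((P i j : ℚ) : L) := by
    intro j
    have h1 := c.sum_repr ⟨b j, hb j⟩
    have h2 := congrArg (algebraMap (𝓞 L) L) h1
    rw [map_sum] at h2
    rw [show b j = algebraMap (𝓞 L) L ⟨b j, hb j⟩ from rfl, ← h2]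
    refine Finset.sum_congr rfl fun i _ => ?_
    rw [zsmul_eq_mul, map_mul, mul_comm]
    simp [hP]
  have hvec : (b : ι → L) = (fun i => (c i : L)) ᵥ* (P.map (Int.castRingHom ℚ)).map (algebraMap ℚ L) := by
    funext j
    rw [hcoord j]
    simp [Matrix.vecMul, dotProduct]
  have hdisc : Algebra.discr ℚ b = ((P.map (Int.castRingHom ℚ)).det) ^ 2 *
      Algebra.discr ℚ (fun i => (c i : L)) := by
    rw [hvec]
    exact Algebra.discr_of_matrix_vecMul _ _
  have hdc : Algebra.discr ℚ (fun i => (c i : L)) = (discr L : ℚ) := by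
    rw [← NumberField.discr_eq_discr L c]
    change _ = algebraMap ℤ ℚ _
    rw [← Algebra.discr_localizationLocalization ℤ (nonZeroDivisors ℤ) L]
    congr 1
    ext i
    rw [Basis.localizationLocalization_apply]
  have hdet : (P.map (Int.castRingHom ℚ)).det = ((P.det : ℤ) : ℚ) := by
    have := (RingHom.map_det (Int.castRingHom ℚ) P).symm
    exact this
  rw [hdc, hdet] at hdisc
  have hb0 : Algebra.discr ℚ b ≠ 0 := Algebra.discr_not_zero_of_basis ℚ b
  have hP0 : P.det ≠ 0 := by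
    intro h0
    apply hb0
    rw [hdisc, h0]
    simp
  have hP1 : (1 : ℝ) ≤ (P.det : ℝ) ^ 2 := by
    have h1 : (1 : ℤ) ≤ P.det ^ 2 := by
      have := sq_pos_of_ne_zero hP0
      linarith
    exact_mod_cast h1
  -- the embeddings
  have hcard : Fintype.card ι = Fintype.card (L →ₐ[ℚ] ℂ) := by
    rw [AlgHom.card]
    exact (Module.finrank_eq_card_basis b).symm
  set e : ι ≃ (L →ₐ[ℚ] ℂ) := Fintype.equivOfCardEq hcard with he
  have h2 := Algebra.discr_eq_det_embeddingsMatrixReindex_pow_two ℚ ℂ (b : ι → L) e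
  have h3 : ‖(Algebra.embeddingsMatrixReindex ℚ ℂ (b : ι → L) e).det‖ ≤
      (Fintype.card ι).factorial * ∏ σ, N σ := by
    rw [← Matrix.det_transpose, ← Equiv.prod_comp e N]
    exact Pool.Agent.W231.R.det_abs_le _ (fun j => N (e j)) fun j i => hN i (e j)
  have h4 : |((Algebra.discr ℚ b : ℚ) : ℝ)| =
      ‖(Algebra.embeddingsMatrixReindex ℚ ℂ (b : ι → L) e).det‖ ^ 2 := by
    rw [← norm_pow, ← h2]
    rw [eq_ratCast]
    have : ((Algebra.discr ℚ b : ℚ) : ℂ) = (((Algebra.discr ℚ b : ℚ) : ℝ) : ℂ) := by push_cast; rfl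
    rw [this, Complex.norm_real, Real.norm_eq_abs]
  calc |(discr L : ℝ)| ≤ (P.det : ℝ) ^ 2 * |(discr L : ℝ)| :=
        le_mul_of_one_le_left (abs_nonneg _) hP1
    _ = |((Algebra.discr ℚ b : ℚ) : ℝ)| := by
        rw [hdisc, Rat.cast_mul, Rat.cast_pow, Rat.cast_intCast, Rat.cast_intCast, abs_mul,
          abs_of_nonneg (sq_nonneg (P.det : ℝ))]
    _ = _ := h4
    _ ≤ _ := pow_le_pow_left₀ (norm_nonneg _) h3 2

lemma prod_emb {K : Type*} [Field K] [NumberField K] (pb : PowerBasis ℚ K) (g : ℂ → ℝ) :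
    ∏ σ : K →ₐ[ℚ] ℂ, g (σ pb.gen) = (((minpoly ℚ pb.gen).aroots ℂ).map g).prod := by
  classical
  have hsep : (minpoly ℚ pb.gen).Separable := Algebra.IsSeparable.isSeparable ℚ pb.gen
  rw [Fintype.prod_equiv pb.liftEquiv' (fun σ => g (σ pb.gen)) (fun x => g x), Finset.prod_mem_multiset _ _ g,
    Finset.prod_eq_multiset_prod, Multiset.toFinset_val, Multiset.dedup_eq_self.mpr]
  · exact nodup_roots hsep.map
  · intro x; rfl
  · intro σ; simp only [PowerBasis.liftEquiv'_apply_coe]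

/-- the product of the large conjugates -/
lemma prod_max {K : Type*} [Field K] [NumberField K] (θ : K) (F : ℤ[X]) (hF : F.Monic)
    (hirr : Irreducible (F.map (Int.castRingHom ℚ))) (hθ : aeval θ F = 0)
    (hgen : IntermediateField.adjoin ℚ {θ} = ⊤) :
    ∏ σ : K →ₐ[ℚ] ℂ, max 1 ‖σ θ‖ = (F.map (Int.castRingHom ℂ)).mahlerMeasure := by
  have hint : IsIntegral ℤ θ := ⟨F, hF, by rwa [← aeval_def]⟩
  have hadj : Algebra.adjoin ℚ {θ} = ⊤ := by
    rw [← IntermediateField.adjoin_simple_toSubalgebra_of_isAlgebraic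
      (Algebra.IsAlgebraic.isAlgebraic _), hgen]
    rfl
  obtain ⟨pb, hpb⟩ : ∃ pb : PowerBasis ℚ K, pb.gen = θ :=
    ⟨PowerBasis.ofAdjoinEqTop (hint.tower_top) hadj, PowerBasis.ofAdjoinEqTop_gen _ _⟩
  have hmin : minpoly ℚ θ = F.map (Int.castRingHom ℚ) := by
    symm
    apply minpoly.eq_of_irreducible_of_monic hirr _ (hF.map _)
    have := aeval_map_algebraMap ℚ θ F
    rw [algebraMap_int_eq] at this
    rw [this, hθ]
  have h1 := prod_emb pb (fun z => max 1 ‖z‖)
  rw [hpb, hmin] at h1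
  rw [h1, mahlerMeasure_eq_leadingCoeff_mul_prod_roots, (hF.map _).leadingCoeff, norm_one, one_mul]
  unfold aroots
  rw [Polynomial.map_map]
  congr 4

/-- Mahler's inequality -/
theorem mahler_disc {K : Type*} [Field K] [NumberField K] (θ : K) (F : ℤ[X]) (hF : F.Monic)
    (hirr : Irreducible (F.map (Int.castRingHom ℚ))) (hθ : aeval θ F = 0)
    (hgen : IntermediateField.adjoin ℚ {θ} = ⊤) :
    finrank ℚ K = F.natDegree ∧
    |(discr K : ℝ)| ≤ ((F.natDegree.factorial : ℝ) *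
      (F.map (Int.castRingHom ℂ)).mahlerMeasure ^ (F.natDegree - 1)) ^ 2 := by
  have hint : IsIntegral ℤ θ := ⟨F, hF, by rwa [← aeval_def]⟩
  have hadj : Algebra.adjoin ℚ {θ} = ⊤ := by
    rw [← IntermediateField.adjoin_simple_toSubalgebra_of_isAlgebraic
      (Algebra.IsAlgebraic.isAlgebraic _), hgen]
    rfl
  obtain ⟨pb, hpb⟩ : ∃ pb : PowerBasis ℚ K, pb.gen = θ :=
    ⟨PowerBasis.ofAdjoinEqTop (hint.tower_top) hadj, PowerBasis.ofAdjoinEqTop_gen _ _⟩
  have hmin : minpoly ℚ θ = F.map (Int.castRingHom ℚ) := by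
    symm
    apply minpoly.eq_of_irreducible_of_monic hirr _ (hF.map _)
    have := aeval_map_algebraMap ℚ θ F
    rw [algebraMap_int_eq] at this
    rw [this, hθ]
  have hdim : pb.dim = F.natDegree := by
    rw [← pb.natDegree_minpoly, hpb, hmin, hF.natDegree_map]
  refine ⟨by rw [pb.finrank, hdim], ?_⟩
  have hb : ∀ i, IsIntegral ℤ (pb.basis i) := by
    intro i
    rw [pb.basis_eq_pow, hpb]
    exact hint.pow _
  have h1 := abs_discr_le_row pb.basis hb (fun σ => (max 1 ‖σ θ‖) ^ (F.natDegree - 1)) (by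
    intro i σ
    rw [pb.basis_eq_pow, hpb, map_pow, norm_pow]
    calc ‖σ θ‖ ^ (i : ℕ) ≤ (max 1 ‖σ θ‖) ^ (i : ℕ) :=
          pow_le_pow_left₀ (norm_nonneg _) (le_max_right _ _) _
      _ ≤ (max 1 ‖σ θ‖) ^ (F.natDegree - 1) := by
          apply pow_le_pow_right₀ (le_max_left _ _)
          have := i.2
          omega)
  rwa [Fintype.card_fin, hdim, Finset.prod_pow, prod_max θ F hF hirr hθ hgen] at h1

/-- bound for a single conjugate -/
lemma conj_le_mahler {K : Type*} [Field K] [NumberField K] (θ : K) (F : ℤ[X]) (hF : F.Monic)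
    (hirr : Irreducible (F.map (Int.castRingHom ℚ))) (hθ : aeval θ F = 0)
    (hgen : IntermediateField.adjoin ℚ {θ} = ⊤) (σ : K →+* ℂ) :
    ‖σ θ‖ ≤ (F.map (Int.castRingHom ℂ)).mahlerMeasure := by
  classical
  rw [← prod_max θ F hF hirr hθ hgen]
  let σ' : K →ₐ[ℚ] ℂ := RingHom.equivRatAlgHom K ℂ σ
  have e : ‖σ θ‖ = ‖σ' θ‖ := rfl
  rw [e]
  refine (le_max_right 1 _).trans ?_
  rw [← Finset.mul_prod_erase univ (fun σ : K →ₐ[ℚ] ℂ => max 1 ‖σ θ‖) (mem_univ σ')]
  apply le_mul_of_one_le_right (by positivity)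
  calc (1 : ℝ) = ∏ _σ ∈ univ.erase σ', (1 : ℝ) := by simp
    _ ≤ _ := Finset.prod_le_prod (fun _ _ => zero_le_one) fun σ _ => le_max_left _ _

end Pool.Agent.Q22.LP
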