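import Pool.Agent.Q22.LP.Mahler
import Pool.Agent.Q22.LE.Cnt

set_option autoImplicit false

/-! How many `t` give the same field, generated by a root of `(X - t) G - 1`. -/

namespace Pool.Agent.Q22.LP

open NumberField Module Finset Polynomial

/-- the polynomial -/
noncomputable def Fp (G : ℤ[X]) (t : ℤ) : ℤ[X] := (X - C t) * G - 1

lemma Fp_monic {G : ℤ[X]} (hG : G.Monic) (hG1 : 1 ≤ G.natDegree) (t : ℤ) :
    (Fp G t).Monic ∧ (Fp G t).natDegree = G.natDegree + 1 := by
  have h1 : ((X - C t) * G).Monic := (monic_X_sub_C t).mul hG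
  have h2 : ((X - C t) * G).natDegree = G.natDegree + 1 := by
    rw [(monic_X_sub_C t).natDegree_mul hG, natDegree_X_sub_C, add_comm]
  have h3 : (1 : ℤ[X]).degree < ((X - C t) * G).degree := by
    rw [degree_one, degree_eq_natDegree h1.ne_zero, h2]
    exact_mod_cast Nat.succ_pos _
  refine ⟨h1.sub_of_left h3, ?_⟩
  unfold Fp
  rw [natDegree_sub_eq_left_of_natDegree_lt (by rw [h2, natDegree_one]; omega), h2]

/-- the Mahler measure is at most linear in `t` -/
lemma Fp_mahler (G : ℤ[X]) (hG : G.Monic) (hG1 : 1 ≤ G.natDegree) : ∃ C₁ : ℝ, 1 ≤ C₁ ∧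
    ∀ T : ℝ, 1 ≤ T → ∀ t : ℤ, |(t : ℝ)| ≤ T →
      ((Fp G t).map (Int.castRingHom ℂ)).mahlerMeasure ≤ C₁ * T := by
  obtain ⟨H, hH0, hH⟩ : ∃ H : ℝ, 0 ≤ H ∧ ∀ k, |(G.coeff k : ℝ)| ≤ H := by
    refine ⟨∑ k ∈ range (G.natDegree + 1), |(G.coeff k : ℝ)|, sum_nonneg fun _ _ => abs_nonneg _, fun k => ?_⟩
    by_cases hk : k < G.natDegree + 1
    · exact single_le_sum (f := fun k => |(G.coeff k : ℝ)|) (fun _ _ => abs_nonneg _) (mem_range.2 hk)
    · rw [coeff_eq_zero_of_natDegree_lt (by omega)]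
      simp only [Int.cast_zero, abs_zero]
      exact sum_nonneg fun _ _ => abs_nonneg _
  refine ⟨(G.natDegree + 2 : ℕ) * (2 * H + 1), ?_, ?_⟩
  · have h1 : (1 : ℝ) ≤ ((G.natDegree + 2 : ℕ) : ℝ) := by exact_mod_cast (by omega : 1 ≤ G.natDegree + 2)
    nlinarith
  · intro T hT t ht
    refine (mahlerMeasure_le_sum_norm_coeff _).trans ?_
    rw [sum_over_range _ (fun _ => norm_zero), (Fp_monic hG hG1 t).1.natDegree_map, (Fp_monic hG hG1 t).2]
    have hc : ∀ k, ‖((Fp G t).map (Int.castRingHom ℂ)).coeff k‖ ≤ (2 * H + 1) * T := by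
      intro k
      have e : ‖((Fp G t).map (Int.castRingHom ℂ)).coeff k‖ = |((Fp G t).coeff k : ℝ)| := by
        rw [coeff_map]
        exact Complex.norm_intCast _
      rw [e]
      have h2 : |((Fp G t).coeff k : ℝ)| ≤ H + T * H + 1 := by
        unfold Fp
        have h3 : |((1 : ℤ[X]).coeff k : ℝ)| ≤ 1 := by
          rw [coeff_one]
          split_ifs <;> simp
        have h4 : ((X - C t) * G).coeff k = (X * G).coeff k - t * G.coeff k := by
          rw [sub_mul, coeff_sub, coeff_C_mul]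
        have h5 : |((X * G).coeff k : ℝ)| ≤ H := by
          cases k with
          | zero => simpa using hH0
          | succ k => rw [coeff_X_mul]; exact hH k
        rw [coeff_sub, h4]
        push_cast
        have h6 : |(t : ℝ) * (G.coeff k : ℝ)| ≤ T * H := by
          rw [abs_mul]
          exact mul_le_mul ht (hH k) (abs_nonneg _) (by linarith)
        calc |((X * G).coeff k : ℝ) - (t : ℝ) * (G.coeff k : ℝ) - ((1 : ℤ[X]).coeff k : ℝ)|
            ≤ |((X * G).coeff k : ℝ) - (t : ℝ) * (G.coeff k : ℝ)| + |((1 : ℤ[X]).coeff k : ℝ)| := abs_sub _ _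
          _ ≤ (|((X * G).coeff k : ℝ)| + |(t : ℝ) * (G.coeff k : ℝ)|) + |((1 : ℤ[X]).coeff k : ℝ)| := by
              gcongr; exact abs_sub _ _
          _ ≤ H + T * H + 1 := by linarith
      nlinarith
    calc ∑ k ∈ range (G.natDegree + 1 + 1), ‖((Fp G t).map (Int.castRingHom ℂ)).coeff k‖
        ≤ ∑ _k ∈ range (G.natDegree + 1 + 1), (2 * H + 1) * T := sum_le_sum fun k _ => hc k
      _ = _ := by
        rw [sum_const, card_range, nsmul_eq_mul]
        push_cast
        ring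

/-- the unit `θ - t` -/
lemma exists_unit (G : ℤ[X]) (hG : G.Monic) (hG1 : 1 ≤ G.natDegree) (t : ℤ) {K : Type} [Field K]
    [NumberField K] (θ : K) (hθ : aeval θ (Fp G t) = 0) :
    ∃ u : (𝓞 K)ˣ, ((u : 𝓞 K) : K) = θ - (t : K) ∧ (θ - (t : K)) * aeval θ G = 1 := by
  have hint : IsIntegral ℤ θ := ⟨Fp G t, (Fp_monic hG hG1 t).1, by rwa [← aeval_def]⟩
  have h1 : (θ - (t : K)) * aeval θ G = 1 := by
    have h2 := hθ
    unfold Fp at h2
    rw [map_sub, map_mul, map_sub, aeval_X, aeval_C, map_one] at h2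
    simp only [algebraMap_int_eq, eq_intCast] at h2
    linear_combination h2
  obtain ⟨z, hz⟩ : ∃ z : 𝓞 K, algebraMap (𝓞 K) K z = θ := ⟨⟨θ, hint⟩, rfl⟩
  have h3 : (z - (t : 𝓞 K)) * aeval z G = 1 := by
    apply FaithfulSMul.algebraMap_injective (𝓞 K) K
    rw [map_mul, map_sub, map_intCast, map_one, ← aeval_algebraMap_apply, hz]
    exact h1
  refine ⟨Units.mkOfMulEqOne _ _ h3, ?_, h1⟩
  change algebraMap (𝓞 K) K (z - (t : 𝓞 K)) = _
  rw [map_sub, map_intCast, hz]

/-- the number of `t` with the same unit -/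
lemma fibre (G : ℤ[X]) (hG : G.Monic) (hG1 : 1 ≤ G.natDegree) {K : Type} [Field K] [NumberField K]
    (w : K) (s : Finset ℤ) (hs : ∀ t ∈ s, w * aeval (w + (t : K)) G = 1) : s.card ≤ G.natDegree := by
  classical
  rcases s.eq_empty_or_nonempty with rfl | ⟨t₀, ht₀⟩
  · simp
  have hw : w ≠ 0 := by
    rintro rfl
    have := hs t₀ ht₀
    simp at this
  set Q : K[X] := C w * ((G.map (Int.castRingHom K)).comp (X + C w)) - 1 with hQ
  have hGm : (G.map (Int.castRingHom K)).Monic := hG.map _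
  have hd : (C w * ((G.map (Int.castRingHom K)).comp (X + C w))).natDegree = G.natDegree := by
    rw [natDegree_C_mul hw, natDegree_comp, natDegree_X_add_C, mul_one, hG.natDegree_map]
  have hQd : Q.natDegree = G.natDegree := by
    rw [hQ, natDegree_sub_eq_left_of_natDegree_lt (by rw [hd, natDegree_one]; omega), hd]
  have hQ0 : Q ≠ 0 := by
    intro h
    rw [h, natDegree_zero] at hQd
    omega
  have h1 : s.card ≤ Q.roots.toFinset.card := by
    refine card_le_card_of_injOn (fun t : ℤ => (t : K)) ?_ (fun a _ b _ hab => Int.cast_injective (α := K) hab)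
    intro t ht
    have h2 := hs t ht
    rw [aeval_def, algebraMap_int_eq, ← eval_map] at h2
    rw [mem_coe, Multiset.mem_toFinset, mem_roots hQ0, IsRoot.def, hQ, eval_sub, eval_mul, eval_C,
      eval_comp, eval_add, eval_X, eval_C, eval_one, add_comm (t : K) w, sub_eq_zero]
    exact h2
  exact h1.trans ((Multiset.toFinset_card_le _).trans ((card_roots' _).trans hQd.le))

/-- the number of `t` belonging to one field -/
theorem mult (G : ℤ[X]) (hG : G.Monic) (hG1 : 1 ≤ G.natDegree) : ∃ C₂ C₁ : ℝ, 0 < C₂ ∧ 1 ≤ C₁ ∧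
    ∀ (K : Type) [Field K] [NumberField K], finrank ℚ K = G.natDegree + 1 → ∀ T : ℝ, 1 ≤ T →
      ∀ s : Finset ℤ, (∀ t ∈ s, |(t : ℝ)| ≤ T ∧ Irreducible ((Fp G t).map (Int.castRingHom ℚ)) ∧
        ∃ θ : K, aeval θ (Fp G t) = 0 ∧ IntermediateField.adjoin ℚ {θ} = ⊤) →
      (s.card : ℝ) ≤ C₂ * Real.log (C₁ * T) ^ G.natDegree := by
  classical
  obtain ⟨C, hC, hcu⟩ := Pool.Agent.Q22.LE.card_units (G.natDegree + 1) (by omega)
  obtain ⟨C₁, hC₁, hmah⟩ := Fp_mahler G hG hG1
  refine ⟨G.natDegree * C, C₁ + 1, by positivity, by linarith, ?_⟩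
  intro K _ _ hK T hT s hs
  choose! θ hθ hgen using fun t ht => (hs t ht).2.2
  choose! u hu hu1 using fun t ht => exists_unit G hG hG1 t (θ t) (hθ t ht)
  have hWc : ((s.image u).card : ℝ) ≤ C * Real.log ((C₁ + 1) * T) ^ G.natDegree := by
    have h1 := hcu K hK ((C₁ + 1) * T) (by nlinarith) (s.image u) ?_
    · simpa using h1
    · intro x hx φ
      rw [mem_image] at hx
      obtain ⟨t, ht, rfl⟩ := hx
      rw [hu t ht, map_sub, map_intCast]
      have h1 := conj_le_mahler (θ t) (Fp G t) (Fp_monic hG hG1 t).1 (hs t ht).2.1 (hθ t ht) (hgen t ht) φ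
      have h2 : ‖((t : ℤ) : ℂ)‖ = |(t : ℝ)| := Complex.norm_intCast _
      have h3 := (hs t ht).1
      have h4 := norm_sub_le (φ (θ t)) ((t : ℤ) : ℂ)
      have h5 := hmah T hT t h3
      rw [h2] at h4
      linarith
  have h1 : s.card ≤ G.natDegree * (s.image u).card := by
    refine card_le_mul_card_image (f := u) s _ fun b hb => ?_
    refine fibre G hG hG1 ((b : 𝓞 K) : K) _ fun t ht => ?_
    rw [mem_filter] at ht
    rw [← ht.2, hu t ht.1, sub_add_cancel]
    exact hu1 t ht.1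
  calc (s.card : ℝ) ≤ ((G.natDegree * (s.image u).card : ℕ) : ℝ) := by exact_mod_cast h1
    _ = G.natDegree * ((s.image u).card : ℝ) := by push_cast; ring
    _ ≤ G.natDegree * (C * Real.log ((C₁ + 1) * T) ^ G.natDegree) :=
        mul_le_mul_of_nonneg_left hWc (Nat.cast_nonneg _)
    _ = _ := by ring

end Pool.Agent.Q22.LP
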